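import Mathlib

open Finset Relation

namespace Pool.Agent.Results.MP_06c496_co.RegularPolygon

/-- The vertex centroid of an `n`-tuple of points of the plane. -/
noncomputable def centroid {n : ℕ} (v : Fin n → ℂ) : ℂ := (∑ i, v i) / n

/-- One vertex-centroid move: pick an index `i` with `v i ≠ m` (`m` the vertex centroid) and replace
`v i` by any point `v i + t (v i - m)` of the line through `v i` and `m`. -/
def Move {n : ℕ} (v w : Fin n → ℂ) : Prop :=
  ∃ (i : Fin n) (t : ℝ), v i ≠ centroid v ∧
    w = Function.update v i (v i + (t : ℂ) * (v i - centroid v))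

/-- The closed polygon with (cyclically ordered) vertices `v 0, …, v (n-1)` is simple: its vertices
are distinct, and two different edges `[v i, v (i+1)]`, `[v j, v (j+1)]` have no common point other
than a common end point `v (i+1) = v j` or `v (j+1) = v i` of consecutive edges. -/
def IsSimple {n : ℕ} [NeZero n] (v : Fin n → ℂ) : Prop :=
  Function.Injective v ∧ ∀ i j : Fin n, i ≠ j → ∀ z : ℂ,
    z ∈ segment ℝ (v i) (v (i + 1)) → z ∈ segment ℝ (v j) (v (j + 1)) →
      (j = i + 1 ∧ z = v j) ∨ (i = j + 1 ∧ z = v i)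

/-- `w` is a regular polygon: `w k = c + r ζ ^ k` with `r ≠ 0` and `ζ = exp (2 π i / n)`; this is
the convex regular `n`-gon with centre `c`, its vertices in cyclic (counterclockwise) order. -/
def IsRegular {n : ℕ} (w : Fin n → ℂ) : Prop :=
  ∃ c r : ℂ, r ≠ 0 ∧ ∀ k : Fin n, w k = c + r * Complex.exp (2 * Real.pi * Complex.I / n) ^ (k : ℕ)

/-- `w` can be obtained from `v` by a finite sequence of vertex-centroid moves. -/
def Reach {n : ℕ} (v w : Fin n → ℂ) : Prop := ReflTransGen Move v w

section moves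

variable {n : ℕ}

/-- the mean of the other vertices -/
noncomputable def mo (v : Fin n → ℂ) (i : Fin n) : ℂ := (∑ k ∈ univ.erase i, v k) / (n - 1 : ℂ)

theorem centroid_eq (hn : 3 ≤ n) (v : Fin n → ℂ) (i : Fin n) :
    centroid v = ((n - 1 : ℂ) * mo v i + v i) / n := by
  unfold centroid mo
  have h1 : (n : ℂ) - 1 ≠ 0 := by
    have : ((n : ℝ) - 1) ≠ 0 := by
      have : (3 : ℝ) ≤ n := by exact_mod_cast hn
      linarith
    exact_mod_cast this
  rw [mul_div_cancel₀ _ h1, Finset.sum_erase_add _ _ (mem_univ i)]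

theorem mo_update (v : Fin n → ℂ) (i : Fin n) (x : ℂ) : mo (Function.update v i x) i = mo v i := by
  unfold mo
  congr 1
  refine Finset.sum_congr rfl fun k hk => ?_
  rw [Function.update_of_ne (Finset.ne_of_mem_erase hk)]

/-- the scaling of the vertex `i` from the mean of the other vertices -/
theorem reach_scale (hn : 3 ≤ n) (v : Fin n → ℂ) (i : Fin n) (l : ℝ) :
    Reach v (Function.update v i (mo v i + (l : ℂ) * (v i - mo v i))) := by
  have hn' : (3 : ℝ) ≤ n := by exact_mod_cast hn
  have h0 : (n : ℂ) ≠ 0 := by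
    have : (n : ℝ) ≠ 0 := by linarith
    exact_mod_cast this
  have h1 : (n : ℂ) - 1 ≠ 0 := by
    have : ((n : ℝ) - 1) ≠ 0 := by linarith
    exact_mod_cast this
  have hc := centroid_eq hn v i
  by_cases h : v i = centroid v
  · have h2 : v i = mo v i := by
      rw [hc, eq_div_iff h0] at h
      have h3 : ((n : ℂ) - 1) * (v i - mo v i) = 0 := by linear_combination h
      rcases mul_eq_zero.mp h3 with h4 | h4
      · exact absurd h4 h1
      · exact sub_eq_zero.mp h4
    rw [← h2, sub_self, mul_zero, add_zero, Function.update_eq_self]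
    exact ReflTransGen.refl
  · refine ReflTransGen.single ⟨i, (l - 1) * (n / (n - 1)), h, ?_⟩
    congr 1
    rw [hc]
    push_cast
    field_simp
    ring

theorem mo_swap (hn : 3 ≤ n) (v : Fin n → ℂ) {i j : Fin n} (hij : i ≠ j) (x y : ℂ) :
    mo (Function.update (Function.update v i x) j y) i =
      (y + ∑ k ∈ (univ.erase i).erase j, v k) / (n - 1 : ℂ) := by
  unfold mo
  congr 1
  rw [← Finset.add_sum_erase (univ.erase i) _ (Finset.mem_erase.mpr ⟨hij.symm, mem_univ j⟩)]
  rw [Function.update_self]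
  congr 1
  refine Finset.sum_congr rfl fun k hk => ?_
  have h1 := Finset.ne_of_mem_erase hk
  have h2 := Finset.ne_of_mem_erase (Finset.mem_of_mem_erase hk)
  rw [Function.update_of_ne h1, Function.update_of_ne h2]

/-- the configuration in which the vertices `i`, `j` are moved to `x`, `y` -/
noncomputable def st (v : Fin n → ℂ) (i j : Fin n) (x y : ℂ) : Fin n → ℂ :=
  Function.update (Function.update v i x) j y

theorem reach_D (hn : 3 ≤ n) (v : Fin n → ℂ) {i j : Fin n} (hij : i ≠ j) (x y : ℂ) (l : ℝ) (m : ℂ)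
    (hm : m = (y + ∑ k ∈ (univ.erase i).erase j, v k) / (n - 1 : ℂ)) :
    Reach (st v i j x y) (st v i j (m + (l : ℂ) * (x - m)) y) := by
  have h := reach_scale hn (st v i j x y) i l
  have h1 : mo (st v i j x y) i = m := by
    rw [hm]
    exact mo_swap hn v hij x y
  have h2 : (st v i j x y) i = x := by
    unfold st
    rw [Function.update_of_ne hij, Function.update_self]
  rw [h1, h2] at h
  have h3 : Function.update (st v i j x y) i (m + (l : ℂ) * (x - m)) =
      st v i j (m + (l : ℂ) * (x - m)) y := by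
    unfold st
    rw [Function.update_comm hij.symm, Function.update_idem]
  rw [h3] at h
  exact h

theorem reach_E (hn : 3 ≤ n) (v : Fin n → ℂ) {i j : Fin n} (hij : i ≠ j) (x y : ℂ) (l : ℝ) (m : ℂ)
    (hm : m = (x + ∑ k ∈ (univ.erase i).erase j, v k) / (n - 1 : ℂ)) :
    Reach (st v i j x y) (st v i j x (m + (l : ℂ) * (y - m))) := by
  have hsw : ∀ x y : ℂ, st v i j x y = st v j i y x := by
    intro x y
    unfold st
    exact Function.update_comm hij x y v
  rw [hsw, hsw]
  refine reach_D hn v hij.symm y x l m ?_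
  rw [hm, Finset.erase_right_comm]

/-- the transvection: the vertex `i` is moved by any real multiple of the vector from the mean of the
vertices other than `i` to the vertex `j` -/
theorem reach_T0 (hn : 3 ≤ n) (v : Fin n → ℂ) {i j : Fin n} (hij : i ≠ j) (l : ℝ) (hl : l ≠ 0) :
    Reach v (Function.update v i (v i + (((l - 1) * ((1 / (n - 1 : ℝ)) *
      (1 - (1 / (n - 1 : ℝ)) ^ 2 * (3 + (1 / (n - 1 : ℝ)) ^ 2) / 4)) /
        (1 - 1 / (n - 1 : ℝ)) : ℝ) : ℂ) * (v j - mo v i))) := by
  have hn' : (3 : ℝ) ≤ n := by exact_mod_cast hn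
  obtain ⟨q, hq⟩ : ∃ q : ℝ, q = 1 / ((n : ℝ) - 1) := ⟨_, rfl⟩
  have hn1 : (0 : ℝ) < (n : ℝ) - 1 := by linarith
  have hq0 : 0 < q := by rw [hq]; positivity
  have hq1 : q ≤ 1 / 2 := by
    rw [hq]
    exact one_div_le_one_div_of_le (by norm_num) (by linarith)
  obtain ⟨o, ho⟩ : ∃ o : ℂ, o = ∑ k ∈ (univ.erase i).erase j, v k := ⟨_, rfl⟩
  have hmo : mo v i = q * (v j + o) := by
    have h := mo_swap hn v hij (v i) (v j)
    rw [Function.update_eq_self, Function.update_eq_self, ← ho] at h
    rw [h, hq]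
    push_cast
    ring
  have hst : st v i j (v i) (v j) = v := by
    unfold st
    rw [Function.update_eq_self, Function.update_eq_self]
  have D : ∀ (x y : ℂ) (l : ℝ), Reach (st v i j x y)
      (st v i j ((q : ℂ) * (y + o) + (l : ℂ) * (x - (q : ℂ) * (y + o))) y) := by
    intro x y l
    refine reach_D hn v hij x y l _ ?_
    rw [hq, ← ho]
    push_cast
    ring
  have E : ∀ (x y : ℂ) (l : ℝ), Reach (st v i j x y)
      (st v i j x ((q : ℂ) * (x + o) + (l : ℂ) * (y - (q : ℂ) * (x + o)))) := by
    intro x y l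
    refine reach_E hn v hij x y l _ ?_
    rw [hq, ← ho]
    push_cast
    ring
  have key : ∀ x0 y0 x1 y1 x2 y2 x3 y3 x4 : ℂ,
      x1 = (q : ℂ) * (y0 + o) + ((1 / l : ℝ) : ℂ) * (x0 - (q : ℂ) * (y0 + o)) →
      y1 = (q : ℂ) * (x1 + o) + (((3 + q ^ 2) / (2 + q ^ 2) : ℝ) : ℂ) *
        (y0 - (q : ℂ) * (x1 + o)) →
      x2 = (q : ℂ) * (y1 + o) + ((1 / 2 : ℝ) : ℂ) * (x1 - (q : ℂ) * (y1 + o)) →
      y2 = (q : ℂ) * (x2 + o) + ((1 / 2 : ℝ) : ℂ) * (y1 - (q : ℂ) * (x2 + o)) →
      x3 = (q : ℂ) * (y2 + o) + ((l : ℝ) : ℂ) * (x2 - (q : ℂ) * (y2 + o)) →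
      y3 = (q : ℂ) * (x3 + o) + ((2 : ℝ) : ℂ) * (y2 - (q : ℂ) * (x3 + o)) →
      x4 = (q : ℂ) * (y3 + o) + ((2 : ℝ) : ℂ) * (x3 - (q : ℂ) * (y3 + o)) →
      Reach (st v i j x0 y0) (st v i j x4 ((q : ℂ) * (x4 + o) +
        (((2 + q ^ 2) / (3 + q ^ 2) : ℝ) : ℂ) * (y3 - (q : ℂ) * (x4 + o)))) := by
    rintro x0 y0 x1 y1 x2 y2 x3 y3 x4 h1 h2 h3 h4 h5 h6 h7
    have r1 := D x0 y0 (1 / l)
    rw [← h1] at r1
    have r2 := E x1 y0 ((3 + q ^ 2) / (2 + q ^ 2))
    rw [← h2] at r2
    have r3 := D x1 y1 (1 / 2)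
    rw [← h3] at r3
    have r4 := E x2 y1 (1 / 2)
    rw [← h4] at r4
    have r5 := D x2 y2 l
    rw [← h5] at r5
    have r6 := E x3 y2 2
    rw [← h6] at r6
    have r7 := D x3 y3 2
    rw [← h7] at r7
    have r8 := E x4 y3 ((2 + q ^ 2) / (3 + q ^ 2))
    exact ((((((r1.trans r2).trans r3).trans r4).trans r5).trans r6).trans r7).trans r8
  have hqc1 : (2 : ℂ) + (q : ℂ) ^ 2 ≠ 0 := by
    have : (2 : ℝ) + q ^ 2 ≠ 0 := by positivity
    exact_mod_cast this
  have hqc2 : (3 : ℂ) + (q : ℂ) ^ 2 ≠ 0 := by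
    have : (3 : ℝ) + q ^ 2 ≠ 0 := by positivity
    exact_mod_cast this
  have hlc : (l : ℂ) ≠ 0 := by exact_mod_cast hl
  have hqc3 : (1 : ℂ) - (q : ℂ) ≠ 0 := by
    have : (1 : ℝ) - q ≠ 0 := by linarith
    exact_mod_cast this
  have hk := key (v i) (v j) _ _ _ _ _ _ _ rfl rfl rfl rfl rfl rfl rfl
  rw [hst] at hk
  rw [← hq, hmo]
  have e1 : ∀ x y : ℂ, Function.update v i x = st v i j x (v j) := by
    intro x y
    unfold st
    rw [Function.update_comm hij, Function.update_eq_self]
  rw [e1 _ 0]
  push_cast at hk ⊢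
  convert hk using 2
  · field_simp
    ring
  · field_simp
    ring

/-- the transvection with an arbitrary real factor -/
theorem reach_T (hn : 3 ≤ n) (v : Fin n → ℂ) {i j : Fin n} (hij : i ≠ j) (s : ℝ) :
    Reach v (Function.update v i (v i + (s : ℂ) * (v j - mo v i))) := by
  have hn' : (3 : ℝ) ≤ n := by exact_mod_cast hn
  obtain ⟨q, hq⟩ : ∃ q : ℝ, q = 1 / ((n : ℝ) - 1) := ⟨_, rfl⟩
  have hn1 : (0 : ℝ) < (n : ℝ) - 1 := by linarith
  have hq0 : 0 < q := by rw [hq]; positivity
  have hq1 : q ≤ 1 / 2 := by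
    rw [hq]
    exact one_div_le_one_div_of_le (by norm_num) (by linarith)
  obtain ⟨K, hK⟩ : ∃ K : ℝ, K = (q * (1 - q ^ 2 * (3 + q ^ 2) / 4)) / (1 - q) := ⟨_, rfl⟩
  have hK0 : K ≠ 0 := by
    have h0 : q ^ 2 ≤ 1 / 4 := by nlinarith
    have h1 : 0 < 1 - q ^ 2 * (3 + q ^ 2) / 4 := by nlinarith [sq_nonneg q]
    have h2 : 0 < 1 - q := by linarith
    rw [hK]
    positivity
  have step : ∀ (u : Fin n → ℂ) (l : ℝ), l ≠ 0 →
      Reach u (Function.update u i (u i + (((l - 1) * K : ℝ) : ℂ) * (u j - mo u i))) := by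
    intro u l hl
    have h := reach_T0 hn u hij l hl
    rw [← hq, mul_div_assoc, ← hK] at h
    exact h
  by_cases hs : 1 + s / K = 0
  · have h1 := step v (1 + s / K / 2) (by
      intro h
      linarith)
    have h2 := step (Function.update v i (v i + (((1 + s / K / 2 - 1) * K : ℝ) : ℂ) *
      (v j - mo v i))) (1 + s / K / 2) (by
      intro h
      linarith)
    have h3 := h1.trans h2
    rw [Function.update_idem, mo_update, Function.update_self, Function.update_of_ne hij.symm] at h3
    have h4 : v i + (((1 + s / K / 2 - 1) * K : ℝ) : ℂ) * (v j - mo v i) +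
        (((1 + s / K / 2 - 1) * K : ℝ) : ℂ) * (v j - mo v i) = v i + (s : ℂ) * (v j - mo v i) := by
      have h5 : (1 + s / K / 2 - 1) * K = s / 2 := by
        field_simp
        ring
      rw [h5]
      push_cast
      ring
    rw [h4] at h3
    exact h3
  · have h1 := step v (1 + s / K) hs
    have h2 : (1 + s / K - 1) * K = s := by
      field_simp
      ring
    rw [h2] at h1
    exact h1

/-- the three points `p`, `q`, `r` are not on a line -/
def NC (p q r : ℂ) : Prop := ∀ z : ℂ, ∃ α β : ℝ, z = (α : ℂ) * (p - r) + (β : ℂ) * (q - r)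

/-- A vertex can be moved anywhere if three other vertices are not on a line. -/
theorem reach_other (hn : 3 ≤ n) (v : Fin n → ℂ) {i a b c : Fin n} (ha : i ≠ a) (hb : i ≠ b)
    (hc : i ≠ c) (h : NC (v a) (v b) (v c)) (z : ℂ) : Reach v (Function.update v i z) := by
  obtain ⟨α, β, hz⟩ := h (z - v i)
  have h1 := reach_T hn v ha α
  have h2 := reach_T hn (Function.update v i (v i + (α : ℂ) * (v a - mo v i))) hb β
  rw [Function.update_idem, mo_update, Function.update_self, Function.update_of_ne hb.symm] at h2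
  have h3 := reach_T hn (Function.update v i (v i + (α : ℂ) * (v a - mo v i) +
    (β : ℂ) * (v b - mo v i))) hc (-(α + β))
  rw [Function.update_idem, mo_update, Function.update_self, Function.update_of_ne hc.symm] at h3
  have h4 := (h1.trans h2).trans h3
  have h5 : v i + (α : ℂ) * (v a - mo v i) + (β : ℂ) * (v b - mo v i) +
      ((-(α + β) : ℝ) : ℂ) * (v c - mo v i) = z := by
    push_cast
    linear_combination -hz
  rw [h5] at h4
  exact h4

/-- A vertex can be moved anywhere if it is not on the line through two other vertices. -/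
theorem reach_self (hn : 3 ≤ n) (v : Fin n → ℂ) {i a b : Fin n} (ha : i ≠ a) (hb : i ≠ b)
    (h : NC (v a) (v b) (v i)) (z : ℂ) : Reach v (Function.update v i z) := by
  obtain ⟨α, β, hz⟩ := h (z - v i)
  have h1 := reach_scale hn v i (1 - (α + β))
  have h2 := reach_T hn (Function.update v i (mo v i + ((1 - (α + β) : ℝ) : ℂ) *
    (v i - mo v i))) ha α
  rw [Function.update_idem, mo_update, Function.update_self, Function.update_of_ne ha.symm] at h2
  have h3 := reach_T hn (Function.update v i (mo v i + ((1 - (α + β) : ℝ) : ℂ) *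
    (v i - mo v i) + (α : ℂ) * (v a - mo v i))) hb β
  rw [Function.update_idem, mo_update, Function.update_self, Function.update_of_ne hb.symm] at h3
  have h4 := (h1.trans h2).trans h3
  have h5 : mo v i + ((1 - (α + β) : ℝ) : ℂ) * (v i - mo v i) + (α : ℂ) * (v a - mo v i) +
      (β : ℂ) * (v b - mo v i) = z := by
    push_cast
    linear_combination -hz
  rw [h5] at h4
  exact h4

theorem reach_regular (hn : 3 ≤ n) (v : Fin n → ℂ) {a b c : Fin n} (hab : a ≠ b) (hca : c ≠ a)
    (hcb : c ≠ b) (h : NC (v a) (v b) (v c)) (hvab : v a ≠ v b) :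
    ∃ w : Fin n → ℂ, IsRegular w ∧ Reach v w := by
  have hn0 : n ≠ 0 := by omega
  have hz := Complex.isPrimitiveRoot_exp n hn0
  set ζ : ℂ := Complex.exp (2 * Real.pi * Complex.I / n) with hζ
  have hne : ζ ^ (a : ℕ) - ζ ^ (b : ℕ) ≠ 0 := by
    intro h0
    have h1 := hz.pow_inj a.2 b.2 (sub_eq_zero.mp h0)
    exact hab (Fin.ext h1)
  obtain ⟨r, hr⟩ : ∃ r : ℂ, r = (v a - v b) / (ζ ^ (a : ℕ) - ζ ^ (b : ℕ)) := ⟨_, rfl⟩
  obtain ⟨w, hw⟩ : ∃ w : Fin n → ℂ, w = fun k : Fin n => (v a - r * ζ ^ (a : ℕ)) + r * ζ ^ (k : ℕ) :=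
    ⟨_, rfl⟩
  have hwa : w a = v a := by
    rw [hw]
    ring
  have hwb : w b = v b := by
    rw [hw, hr]
    field_simp
    ring
  refine ⟨w, ⟨v a - r * ζ ^ (a : ℕ), r, ?_, fun k => by rw [hw]⟩, ?_⟩
  · rw [hr]
    exact div_ne_zero (sub_ne_zero.mpr hvab) hne
  -- move all vertices other than `c`
  have hS : ∀ S : Finset (Fin n), c ∉ S → Reach v (fun k => if k ∈ S then w k else v k) := by
    intro S
    induction S using Finset.induction_on with
    | empty =>
      intro _
      have : (fun k => if k ∈ (∅ : Finset (Fin n)) then w k else v k) = v := by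
        funext k
        simp
      rw [this]
      exact ReflTransGen.refl
    | insert i S hi ih =>
      intro hcS
      have hci : c ≠ i := fun h0 => hcS (h0 ▸ Finset.mem_insert_self _ _)
      have hcS' : c ∉ S := fun h0 => hcS (Finset.mem_insert_of_mem h0)
      have h1 := ih hcS'
      have h2 : (fun k => if k ∈ insert i S then w k else v k) =
          Function.update (fun k => if k ∈ S then w k else v k) i (w i) := by
        funext k
        by_cases hk : k = i
        · subst hk
          simp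
        · rw [Function.update_of_ne hk]
          simp [Finset.mem_insert, hk]
      rw [h2]
      refine h1.trans ?_
      have ea : (if a ∈ S then w a else v a) = v a := by
        simp [hwa]
      have eb : (if b ∈ S then w b else v b) = v b := by
        simp [hwb]
      by_cases hia : i = a
      · have h3 : Function.update (fun k => if k ∈ S then w k else v k) i (w i) =
            (fun k => if k ∈ S then w k else v k) := by
          rw [Function.update_eq_self_iff]
          change w i = if i ∈ S then w i else v i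
          rw [hia, ea, hwa]
        rw [h3]
      by_cases hib : i = b
      · have h3 : Function.update (fun k => if k ∈ S then w k else v k) i (w i) =
            (fun k => if k ∈ S then w k else v k) := by
          rw [Function.update_eq_self_iff]
          change w i = if i ∈ S then w i else v i
          rw [hib, eb, hwb]
        rw [h3]
      refine reach_other hn _ hia hib hci.symm ?_ _
      change NC (if a ∈ S then w a else v a) (if b ∈ S then w b else v b)
        (if c ∈ S then w c else v c)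
      rw [ea, eb, if_neg hcS']
      exact h
  have h1 := hS (univ.erase c) (Finset.notMem_erase _ _)
  refine h1.trans ?_
  have h2 : w = Function.update (fun k => if k ∈ univ.erase c then w k else v k) c (w c) := by
    funext k
    by_cases hk : k = c
    · subst hk
      simp
    · rw [Function.update_of_ne hk]
      simp [hk]
  have ea : (if a ∈ univ.erase c then w a else v a) = v a := by
    simp [hwa]
  have eb : (if b ∈ univ.erase c then w b else v b) = v b := by
    simp [hwb]
  have h3 := reach_self hn (fun k => if k ∈ univ.erase c then w k else v k) hca hcb (by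
    change NC (if a ∈ univ.erase c then w a else v a) (if b ∈ univ.erase c then w b else v b)
      (if c ∈ univ.erase c then w c else v c)
    rw [ea, eb, if_neg (Finset.notMem_erase _ _)]
    exact h) (w c)
  rw [← h2] at h3
  exact h3

end moves

/-- three points that are not on a line -/
theorem nc_or_line (p q r : ℂ) (hpq : p ≠ q) :
    NC p q r ∨ ∃ s : ℝ, r = AffineMap.lineMap p q s := by
  have hd : q - p ≠ 0 := sub_ne_zero.mpr hpq.symm
  by_cases hD : (q.re - p.re) * (r.im - p.im) - (q.im - p.im) * (r.re - p.re) = 0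
  · right
    have hN : (q.re - p.re) ^ 2 + (q.im - p.im) ^ 2 ≠ 0 := by
      intro h0
      apply hd
      have h1 : q.re - p.re = 0 := by nlinarith [sq_nonneg (q.re - p.re), sq_nonneg (q.im - p.im)]
      have h2 : q.im - p.im = 0 := by nlinarith [sq_nonneg (q.re - p.re), sq_nonneg (q.im - p.im)]
      apply Complex.ext <;> simp [h1, h2]
    refine ⟨((q.re - p.re) * (r.re - p.re) + (q.im - p.im) * (r.im - p.im)) /
      ((q.re - p.re) ^ 2 + (q.im - p.im) ^ 2), ?_⟩
    rw [AffineMap.lineMap_apply]
    apply Complex.ext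
    · simp only [vsub_eq_sub, vadd_eq_add, Complex.add_re, Complex.real_smul, Complex.mul_re,
        Complex.ofReal_re, Complex.ofReal_im, Complex.sub_re, Complex.sub_im, zero_mul, sub_zero]
      field_simp
      linear_combination (-(q.im - p.im)) * hD
    · simp only [vsub_eq_sub, vadd_eq_add, Complex.add_im, Complex.real_smul, Complex.mul_im,
        Complex.ofReal_re, Complex.ofReal_im, Complex.sub_re, Complex.sub_im, zero_mul, add_zero]
      field_simp
      linear_combination (q.re - p.re) * hD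
  · left
    intro z
    refine ⟨(z.re * (q.im - r.im) - z.im * (q.re - r.re)) /
        ((q.re - p.re) * (r.im - p.im) - (q.im - p.im) * (r.re - p.re)),
      ((p.re - r.re) * z.im - (p.im - r.im) * z.re) /
        ((q.re - p.re) * (r.im - p.im) - (q.im - p.im) * (r.re - p.re)), ?_⟩
    apply Complex.ext
    · simp only [Complex.add_re, Complex.mul_re, Complex.ofReal_re, Complex.ofReal_im,
        Complex.sub_re, Complex.sub_im, zero_mul, sub_zero]
      field_simp
      ring
    · simp only [Complex.add_im, Complex.mul_im, Complex.ofReal_re, Complex.ofReal_im,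
        Complex.sub_re, Complex.sub_im, zero_mul, add_zero]
      field_simp
      ring

theorem simple_nc {n : ℕ} [NeZero n] (hn : 3 ≤ n) (v : Fin n → ℂ) (hv : IsSimple v) :
    ∃ a b c : Fin n, a ≠ b ∧ c ≠ a ∧ c ≠ b ∧ NC (v a) (v b) (v c) ∧ v a ≠ v b := by
  have h01 : (0 : Fin n) ≠ 1 := by
    intro h0
    have := congrArg Fin.val h0
    rw [Fin.val_zero, Fin.val_one', Nat.mod_eq_of_lt (by omega)] at this
    omega
  have h20 : (1 : Fin n) + 1 ≠ 0 := by
    intro h0
    have := congrArg Fin.val h0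
    rw [Fin.val_add, Fin.val_one', Nat.mod_eq_of_lt (a := 1) (by omega),
      Nat.mod_eq_of_lt (by omega), Fin.val_zero] at this
    omega
  have hv01 : v 0 ≠ v 1 := fun h0 => h01 (hv.1 h0)
  by_contra hcon
  push Not at hcon
  have hline : ∀ k : Fin n, ∃ s : ℝ, v k = AffineMap.lineMap (v 0) (v 1) s := by
    intro k
    by_cases hk0 : k = 0
    · exact ⟨0, by simp [hk0]⟩
    · by_cases hk1 : k = 1
      · exact ⟨1, by simp [hk1]⟩
      · rcases nc_or_line (v 0) (v 1) (v k) hv01 with h | h
        · exact absurd (hcon 0 1 k h01 hk0 hk1 h) hv01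
        · exact h
  choose s hs using hline
  have hseg : ∀ x y z : Fin n, s x ≤ s z → s z ≤ s y →
      v z ∈ segment ℝ (v x) (v y) ∧ v z ∈ segment ℝ (v y) (v x) := by
    intro x y z h1 h2
    have h3 : v z ∈ segment ℝ (v x) (v y) := by
      rw [hs x, hs y, hs z, ← image_segment]
      refine ⟨s z, ?_, rfl⟩
      rw [segment_eq_uIcc, Set.uIcc_of_le (h1.trans h2)]
      exact ⟨h1, h2⟩
    refine ⟨h3, ?_⟩
    rw [segment_symm]
    exact h3
  obtain ⟨k, -, hk⟩ := Finset.exists_min_image univ s ⟨0, mem_univ _⟩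
  have hk1 : k - 1 + 1 = k := sub_add_cancel k 1
  have hne : k ≠ k - 1 := by
    intro h0
    apply h01
    have : k - (k - 1) = 0 := sub_eq_zero.mpr h0
    rw [sub_sub_cancel] at this
    exact this.symm
  have hne2 : k - 1 ≠ k + 1 := by
    intro h0
    apply h20
    have : k + 1 - (k - 1) = 0 := sub_eq_zero.mpr h0.symm
    have h3 : k + 1 - (k - 1) = 1 + 1 := by
      rw [sub_sub_eq_add_sub, add_assoc, add_sub_cancel_left]
    rw [← h3, this]
  have hne3 : k + 1 ≠ k := by
    intro h0
    apply h01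
    have : (1 : Fin n) = 0 := by simpa using h0
    exact this.symm
  rcases le_total (s (k + 1)) (s (k - 1)) with h | h
  · have h1 := (hseg k (k + 1) (k + 1) (hk _ (mem_univ _)) le_rfl).1
    have h2 := (hseg k (k - 1) (k + 1) (hk _ (mem_univ _)) h).2
    have h3 := hv.2 k (k - 1) hne (v (k + 1)) h1 (by rw [hk1]; exact h2)
    rcases h3 with ⟨h3, -⟩ | ⟨-, h3⟩
    · exact hne2 h3
    · exact hne3 (hv.1 h3)
  · have h1 := (hseg k (k + 1) (k - 1) (hk _ (mem_univ _)) h).1
    have h2 := (hseg k (k - 1) (k - 1) (hk _ (mem_univ _)) le_rfl).2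
    have h3 := hv.2 k (k - 1) hne (v (k - 1)) h1 (by rw [hk1]; exact h2)
    rcases h3 with ⟨h3, -⟩ | ⟨-, h3⟩
    · exact hne2 h3
    · exact hne (hv.1 h3).symm

/-- Every simple polygon with `n ≥ 3` vertices can be carried to a regular polygon by a finite
sequence of vertex-centroid moves. -/
theorem result (n : ℕ) [NeZero n] (hn : 3 ≤ n) (v : Fin n → ℂ) (hv : IsSimple v) :
    ∃ w : Fin n → ℂ, IsRegular w ∧ Reach v w := by
  obtain ⟨a, b, c, hab, hca, hcb, h, hvab⟩ := simple_nc hn v hv
  exact reach_regular hn v hab hca hcb h hvab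

end Pool.Agent.Results.MP_06c496_co.RegularPolygon
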